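import Pool.Agent.H64.EV.Targets

/-!
# Row TPR: the iterated contraction of a symmetric tensor
-/

set_option autoImplicit false
set_option linter.unusedSectionVars false

open Matrix Pool.Agent.H64.CC Pool.Agent.H2.NL Pool.Agent.H64.EV

namespace Pool.Agent.H10.EV.TPR

/-! ### Derivations -/

section der

variable {K : Type} [Field K] {J : Type} [Fintype J]

theorem der_congr (T : Matrix J J K) : ∀ (w : List J) (t t' : List J → K),
    (∀ v : List J, v.length = w.length → t v = t' v) → der T t w = der T t' w
  | [], t, t', _ => rfl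
  | a :: w, t, t', h => by
    show ∑ b, T a b * t (b :: w) + der T (fun l => t (a :: l)) w =
      ∑ b, T a b * t' (b :: w) + der T (fun l => t' (a :: l)) w
    rw [der_congr T w _ (fun l => t' (a :: l)) (fun v hv => h _ (by
      rw [List.length_cons, List.length_cons, hv]))]
    congr 1
    exact Finset.sum_congr rfl fun b _ => by rw [h _ (by rw [List.length_cons, List.length_cons])]

theorem der_zero (T : Matrix J J K) (w : List J) : der T 0 w = 0 := by
  have h1 := der_smul T 0 w 0
  rw [zero_smul, zero_mul] at h1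
  exact h1

theorem der_sum {ι : Type} (T : Matrix J J K) (s : Finset ι) (c : ι → K) :
    ∀ (w : List J) (f : ι → List J → K),
    der T (fun v => ∑ i ∈ s, c i * f i v) w = ∑ i ∈ s, c i * der T (f i) w
  | [], f => by simp [der]
  | a :: w, f => by
    show ∑ b, T a b * (∑ i ∈ s, c i * f i (b :: w)) +
      der T (fun l => ∑ i ∈ s, c i * f i (a :: l)) w =
      ∑ i ∈ s, c i * (∑ b, T a b * f i (b :: w) + der T (fun l => f i (a :: l)) w)
    rw [der_sum T s c w (fun i l => f i (a :: l))]
    simp only [mul_add, Finset.sum_add_distrib, Finset.mul_sum]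
    congr 1
    rw [Finset.sum_comm]
    exact Finset.sum_congr rfl fun i _ => Finset.sum_congr rfl fun b _ => by ring

theorem der_der (S T : Matrix J J K) (t : List J → K) (a : J) (w : List J) :
    der S (der T t) (a :: w) =
      ∑ c, (S * T) a c * t (c :: w) + ∑ b, S a b * der T (fun l => t (b :: l)) w +
      ∑ b, T a b * der S (fun l => t (b :: l)) w +
      der S (der T (fun l => t (a :: l))) w := by
  have h1 : der S (der T t) (a :: w) = ∑ b, S a b * der T t (b :: w) +
    der S (fun l => der T t (a :: l)) w := rfl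
  have h2 : (fun l => der T t (a :: l)) = (fun l => ∑ b, T a b * t (b :: l)) +
    der T (fun l => t (a :: l)) := rfl
  have h3 : ∀ b, der T t (b :: w) = ∑ c, T b c * t (c :: w) +
    der T (fun l => t (b :: l)) w := fun b => rfl
  rw [h1, h2, der_add, der_sum S Finset.univ (fun b => T a b) w (fun b l => t (b :: l))]
  have h4 : ∑ b, S a b * der T t (b :: w) = ∑ c, (S * T) a c * t (c :: w) +
      ∑ b, S a b * der T (fun l => t (b :: l)) w := by
    rw [Finset.sum_congr rfl fun b _ => by rw [h3 b, mul_add], Finset.sum_add_distrib]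
    congr 1
    simp only [Finset.mul_sum, Matrix.mul_apply, Finset.sum_mul]
    rw [Finset.sum_comm]
    exact Finset.sum_congr rfl fun c _ => Finset.sum_congr rfl fun b _ => by ring
  rw [h4]
  ring

theorem der_comm (S T : Matrix J J K) : ∀ (w : List J) (t : List J → K),
    der S (der T t) w - der T (der S t) w = der (S * T - T * S) t w
  | [], t => by simp [der]
  | a :: w, t => by
    have ih := der_comm S T w (fun l => t (a :: l))
    have h4 : der (S * T - T * S) t (a :: w) = ∑ c, (S * T - T * S) a c * t (c :: w) +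
      der (S * T - T * S) (fun l => t (a :: l)) w := rfl
    rw [der_der S T, der_der T S, h4, ← ih]
    simp only [Matrix.sub_apply, sub_mul, Finset.sum_sub_distrib]
    ring

theorem der_smulT (c : K) (T : Matrix J J K) : ∀ (w : List J) (t : List J → K),
    der (c • T) t w = c * der T t w
  | [], t => by simp [der]
  | a :: w, t => by
    show ∑ b, (c • T) a b * t (b :: w) + der (c • T) (fun l => t (a :: l)) w =
      c * (∑ b, T a b * t (b :: w) + der T (fun l => t (a :: l)) w)
    rw [der_smulT c T w, mul_add, Finset.mul_sum]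
    congr 1
    exact Finset.sum_congr rfl fun b _ => by rw [Matrix.smul_apply, smul_eq_mul, mul_assoc]

theorem der_diag [DecidableEq J] (d : J → K) : ∀ (w : List J) (t : List J → K),
    der (Matrix.diagonal d) t w = (w.map d).sum * t w
  | [], t => by simp [der]
  | a :: w, t => by
    show ∑ b, (Matrix.diagonal d) a b * t (b :: w) +
      der (Matrix.diagonal d) (fun l => t (a :: l)) w = ((a :: w).map d).sum * t (a :: w)
    rw [der_diag d w, Finset.sum_eq_single a]
    · rw [Matrix.diagonal_apply_eq, List.map_cons, List.sum_cons]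
      ring
    · intro b _ hb
      rw [Matrix.diagonal_apply_ne _ (Ne.symm hb), zero_mul]
    · intro h
      exact absurd (Finset.mem_univ _) h

/-- the derivation as a linear map -/
def dE [CharZero K] (T : Matrix J J K) : Module.End ℚ (List J → K) where
  toFun t := der T t
  map_add' t t' := funext fun w => der_add T w t t'
  map_smul' q t := funext fun w => by
    have h : (q • t : List J → K) = (q : K) • t := by
      funext v
      exact Rat.smul_def q (t v)
    rw [h, der_smul]
    exact (Rat.smul_def q (der T t w)).symm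

theorem dE_apply [CharZero K] (T : Matrix J J K) (t : List J → K) : dE T t = der T t := rfl

theorem dE_comm [CharZero K] (S T : Matrix J J K) :
    dE S * dE T - dE T * dE S = dE (S * T - T * S) := by
  refine LinearMap.ext fun t => funext fun w => ?_
  exact der_comm S T w t

end der

/-! ### Weights -/

section weights

variable {K : Type} [Field K] {I : Type} [Fintype I] [DecidableEq I]

/-- the number of the letters with second component `s` -/
def nf (s : Bool) (w : List (I × Bool)) : ℕ := (w.map Prod.snd).count s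

theorem nf_cons (s : Bool) (a : I × Bool) (w : List (I × Bool)) :
    nf s (a :: w) = nf s w + if a.2 = s then 1 else 0 := by
  unfold nf
  rw [List.map_cons, List.count_cons]
  by_cases h : a.2 = s
  · simp [h]
  · simp [h]

theorem nf_nil (s : Bool) : nf s ([] : List (I × Bool)) = 0 := rfl

theorem nf_le (s : Bool) (w : List (I × Bool)) : nf s w ≤ w.length := by
  unfold nf
  refine List.count_le_length.trans ?_
  rw [List.length_map]

theorem der_step (s : Bool) (T : Matrix (I × Bool) (I × Bool) K)
    (hT : ∀ a b, T a b ≠ 0 → a.2 = s ∧ b.2 ≠ s) : ∀ (w : List (I × Bool))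
    (g : List (I × Bool) → K), (∀ v, v.length = w.length → nf s v + 1 = nf s w → g v = 0) →
    der T g w = 0
  | [], g, _ => rfl
  | a :: w, g, h => by
    show ∑ b, T a b * g (b :: w) + der T (fun l => g (a :: l)) w = 0
    rw [der_step s T hT w (fun l => g (a :: l)) (fun v hv hn => h _ (by
      rw [List.length_cons, List.length_cons, hv]) (by
      rw [nf_cons, nf_cons]; omega)), add_zero]
    refine Finset.sum_eq_zero fun b _ => ?_
    by_cases hb : T a b = 0
    · rw [hb, zero_mul]
    · obtain ⟨h1, h2⟩ := hT a b hb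
      rw [h _ (by rw [List.length_cons, List.length_cons]) (by
        rw [nf_cons, nf_cons, if_neg h2, if_pos h1]), mul_zero]

theorem der_pow [CharZero K] (s : Bool) (T : Matrix (I × Bool) (I × Bool) K)
    (hT : ∀ a b, T a b ≠ 0 → a.2 = s ∧ b.2 ≠ s) (t : List (I × Bool) → K) : ∀ (m : ℕ)
    (w : List (I × Bool)), nf s w < m → ((dE T ^ m) t) w = 0
  | 0, w, h => absurd h (Nat.not_lt_zero _)
  | m + 1, w, h => by
    rw [pow_succ']
    show der T ((dE T ^ m) t) w = 0
    exact der_step s T hT w _ fun v _ hn => der_pow s T hT t m v (by omega)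

end weights

section main

variable {K : Type} [Field K] [CharZero K] {I : Type} [Fintype I] [DecidableEq I] (F : OForm K I)

theorem EE_ne (a b : I × Bool) (h : F.EE a b ≠ 0) : a.1 = b.1 ∧ a.2 = false ∧ b.2 = true := by
  by_contra h1
  apply h
  unfold OForm.EE
  rw [Matrix.of_apply, if_neg h1]

theorem FF_ne (a b : I × Bool) (h : F.FF a b ≠ 0) : a.1 = b.1 ∧ a.2 = true ∧ b.2 = false := by
  by_contra h1
  apply h
  unfold OForm.FF
  rw [Matrix.of_apply, if_neg h1]

/-- the weight of a letter -/
def wt (K : Type) [Field K] {I : Type} (a : I × Bool) : K := if a.2 = false then 1 else -1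

theorem EF : F.EE * F.FF - F.FF * F.EE = Matrix.diagonal (wt K) := by
  ext ⟨a, s⟩ ⟨b, r⟩
  have e1 : F.EE (a, s) (a, true) = if s = false then F.c (F.st a) else 0 := by
    unfold OForm.EE
    simp
  have e2 : F.FF (a, true) (b, r) = if a = b ∧ r = false then (F.c (F.st a))⁻¹ else 0 := by
    unfold OForm.FF
    simp
  have e3 : F.FF (a, s) (a, false) = if s = true then (F.c (F.st a))⁻¹ else 0 := by
    unfold OForm.FF
    simp
  have e4 : F.EE (a, false) (b, r) = if a = b ∧ r = true then F.c (F.st a) else 0 := by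
    unfold OForm.EE
    simp
  have h1 : (F.EE * F.FF) (a, s) (b, r) = if a = b ∧ s = false ∧ r = false then 1 else 0 := by
    rw [Matrix.mul_apply, Finset.sum_eq_single (a, true)]
    · rw [e1, e2]
      by_cases hs : s = false
      · by_cases hr : a = b ∧ r = false
        · rw [if_pos hs, if_pos hr, if_pos ⟨hr.1, hs, hr.2⟩]
          exact mul_inv_cancel₀ (F.c_ne _)
        · rw [if_neg hr, mul_zero, if_neg (fun h => hr ⟨h.1, h.2.2⟩)]
      · rw [if_neg hs, zero_mul, if_neg (fun h => hs h.2.1)]
    · rintro ⟨c, q⟩ _ hc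
      by_cases h : F.EE (a, s) (c, q) = 0
      · rw [h, zero_mul]
      · obtain ⟨h2, _, h4⟩ := EE_ne F _ _ h
        exact absurd (Prod.ext h2.symm h4 : (c, q) = (a, true)) hc
    · intro h
      exact absurd (Finset.mem_univ _) h
  have h2 : (F.FF * F.EE) (a, s) (b, r) = if a = b ∧ s = true ∧ r = true then 1 else 0 := by
    rw [Matrix.mul_apply, Finset.sum_eq_single (a, false)]
    · rw [e3, e4]
      by_cases hs : s = true
      · by_cases hr : a = b ∧ r = true
        · rw [if_pos hs, if_pos hr, if_pos ⟨hr.1, hs, hr.2⟩]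
          exact inv_mul_cancel₀ (F.c_ne _)
        · rw [if_neg hr, mul_zero, if_neg (fun h => hr ⟨h.1, h.2.2⟩)]
      · rw [if_neg hs, zero_mul, if_neg (fun h => hs h.2.1)]
    · rintro ⟨c, q⟩ _ hc
      by_cases h : F.FF (a, s) (c, q) = 0
      · rw [h, zero_mul]
      · obtain ⟨h2, _, h4⟩ := FF_ne F _ _ h
        exact absurd (Prod.ext h2.symm h4 : (c, q) = (a, false)) hc
    · intro h
      exact absurd (Finset.mem_univ _) h
  rw [Matrix.sub_apply, h1, h2, Matrix.diagonal_apply]
  unfold wt
  by_cases hab : a = b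
  · subst hab
    cases s <;> cases r <;> simp
  · rw [if_neg (fun h => hab h.1), if_neg (fun h => hab h.1), if_neg (fun h => hab (congrArg Prod.fst h)),
      sub_zero]

theorem HE : Matrix.diagonal (wt K) * F.EE - F.EE * Matrix.diagonal (wt K) = (2 : K) • F.EE := by
  ext a b
  rw [Matrix.sub_apply, Matrix.diagonal_mul, Matrix.mul_diagonal, Matrix.smul_apply, smul_eq_mul]
  by_cases h : F.EE a b = 0
  · rw [h]; ring
  · obtain ⟨_, h2, h3⟩ := EE_ne F _ _ h
    unfold wt
    rw [if_pos h2, if_neg (by rw [h3]; decide)]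
    ring

theorem HF : Matrix.diagonal (wt K) * F.FF - F.FF * Matrix.diagonal (wt K) = (-2 : K) • F.FF := by
  ext a b
  rw [Matrix.sub_apply, Matrix.diagonal_mul, Matrix.mul_diagonal, Matrix.smul_apply, smul_eq_mul]
  by_cases h : F.FF a b = 0
  · rw [h]; ring
  · obtain ⟨_, h2, h3⟩ := FF_ne F _ _ h
    unfold wt
    rw [if_neg (by rw [h2]; decide), if_pos h3]
    ring

theorem wt_sum : ∀ w : List (I × Bool), (w.map (wt K)).sum = (nf false w : K) - (nf true w : K)
  | [] => by simp [nf_nil]
  | a :: w => by
    rw [List.map_cons, List.sum_cons, wt_sum w, nf_cons, nf_cons]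
    unfold wt
    cases h : a.2
    · rw [if_pos rfl, if_pos rfl, if_neg (by decide)]
      push_cast
      ring
    · rw [if_neg (by decide), if_neg (by decide), if_pos rfl]
      push_cast
      ring

theorem nf_add (w : List (I × Bool)) : nf false w + nf true w = w.length := by
  induction w with
  | nil => rfl
  | cons a w ih =>
    rw [nf_cons, nf_cons, List.length_cons, ← ih]
    cases h : a.2
    · rw [if_pos rfl, if_neg (by decide)]; omega
    · rw [if_neg (by decide), if_pos rfl]; omega

theorem nf_zip (s : Bool) (w : List I) (σ : List Bool) (h : σ.length = w.length) :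
    nf s (w.zip σ) = σ.count s := by
  unfold nf
  rw [List.map_snd_zip (by omega)]

theorem nf_append (s : Bool) (u v : List (I × Bool)) : nf s (u ++ v) = nf s u + nf s v := by
  unfold nf
  rw [List.map_append, List.count_append]

/-- the symmetric tensors with components in `A`, which vanish on words of other lengths -/
def SS (A : ℕ → Submodule ℚ (List I → K)) (l : ℕ) : Submodule ℚ (List (I × Bool) → K) where
  carrier := {y | y ∈ F.TA A l ∧ Symm F.tl.o (2 * l) y ∧ ∀ w, w.length ≠ 2 * l → y w = 0}
  add_mem' := by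
    rintro y y' ⟨h1, h2, h3⟩ ⟨h1', h2', h3'⟩
    refine ⟨(F.TA A l).add_mem h1 h1', ?_, ?_⟩
    · intro j hj w hw
      have e1 := h2 j hj w hw
      have e2 := h2' j hj w hw
      obtain ⟨α, a, b, β, rfl, rfl⟩ := exists_split j w (by omega)
      rw [sw_append] at e1 e2 ⊢
      rw [Pi.add_apply, Pi.add_apply, mul_add, e1, e2]
    · intro w hw
      rw [Pi.add_apply, h3 w hw, h3' w hw, add_zero]
  zero_mem' := by
    refine ⟨(F.TA A l).zero_mem, ?_, fun w _ => rfl⟩
    intro j hj w hw
    obtain ⟨α, a, b, β, rfl, rfl⟩ := exists_split j w (by omega)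
    rw [sw_append]
    exact mul_zero _
  smul_mem' := by
    rintro q y ⟨h1, h2, h3⟩
    refine ⟨(F.TA A l).smul_mem q h1, ?_, ?_⟩
    · intro j hj w hw
      have e1 := h2 j hj w hw
      obtain ⟨α, a, b, β, rfl, rfl⟩ := exists_split j w (by omega)
      rw [sw_append] at e1 ⊢
      rw [Pi.smul_apply, Pi.smul_apply, Rat.smul_def, Rat.smul_def, ← e1]
      ring
    · intro w hw
      rw [Pi.smul_apply, h3 w hw, smul_zero]

theorem der_mem (hTEF : T_TEF) (hDEC : T_DEC) (A : ℕ → Submodule ℚ (List I → K))
    (hC : Calc F.o F.η F.ω A) (l : ℕ) (y : List (I × Bool) → K) (hy : y ∈ SS F A l) :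
    der F.EE y ∈ SS F A l ∧ der F.FF y ∈ SS F A l := by
  obtain ⟨h1, h2, h3⟩ := hy
  have hsymm : ∀ T : Matrix (I × Bool) (I × Bool) K, (∀ a b, T a b ≠ 0 → a.1 = b.1) →
      Symm F.tl.o (2 * l) (der T y) := by
    intro T hT j hj w hw
    rw [← (hDEC K (I × Bool) F.tl.o F.tl.η T (fun a b hab => by
      show (!F.o a.1) = !F.o b.1
      rw [hT a b hab])).1 j y w (by omega)]
    exact der_congr T w _ _ fun v hv => h2 j hj v (hv.trans hw)
  have hlen : ∀ (T : Matrix (I × Bool) (I × Bool) K) (w : List (I × Bool)), w.length ≠ 2 * l →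
      der T y w = 0 := by
    intro T w hw
    rw [der_congr T w y 0 (fun v hv => h3 v (by rw [hv]; exact hw)), der_zero]
  refine ⟨⟨?_, hsymm _ fun a b h => (EE_ne F a b h).1, hlen _⟩,
    ⟨?_, hsymm _ fun a b h => (FF_ne F a b h).1, hlen _⟩⟩
  · intro σ hσ
    have hmem : ∑ i ∈ Finset.range (2 * l),
        (if σ.getD i true = false then F.cmp y (σ.set i true) else 0) ∈ A l := by
      refine (A l).sum_mem fun i _ => ?_
      by_cases hi : σ.getD i true = false
      · rw [if_pos hi]
        exact h1 _ (by rw [List.length_set, hσ])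
      · rw [if_neg hi]
        exact (A l).zero_mem
    refine hC.congr l _ _ hmem fun w hw => ?_
    rw [(hTEF K I F y σ w (hσ.trans hw.symm)).1, hw, Finset.sum_apply]
    refine Finset.sum_congr rfl fun i _ => ?_
    by_cases hi : σ.getD i true = false
    · rw [if_pos hi, if_pos hi]
    · rw [if_neg hi, if_neg hi]
      rfl
  · intro σ hσ
    have hmem : ∑ i ∈ Finset.range (2 * l),
        (if σ.getD i false = true then F.cmp y (σ.set i false) else 0) ∈ A l := by
      refine (A l).sum_mem fun i _ => ?_
      by_cases hi : σ.getD i false = true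
      · rw [if_pos hi]
        exact h1 _ (by rw [List.length_set, hσ])
      · rw [if_neg hi]
        exact (A l).zero_mem
    refine hC.congr l _ _ hmem fun w hw => ?_
    rw [(hTEF K I F y σ w (hσ.trans hw.symm)).2, hw, Finset.sum_apply]
    refine Finset.sum_congr rfl fun i _ => ?_
    by_cases hi : σ.getD i false = true
    · rw [if_pos hi, if_pos hi]
    · rw [if_neg hi, if_neg hi]
      rfl

/-- the contraction -/
theorem con0 (t : List (I × Bool) → K) (w : List (I × Bool)) :
    con F.tl.η 0 t w = ∑ a, F.tl.c a * t (a :: F.tl.st a :: w) :=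
  F.tl.con_append [] t w

theorem itc_congr : ∀ (n : ℕ) (t t' : List (I × Bool) → K),
    (∀ w, w.length = 2 * n → nf false w = n → t w = t' w) → itc F.tl n t = itc F.tl n t'
  | 0, t, t', h => h [] rfl rfl
  | n + 1, t, t', h => by
    show itc F.tl n (con F.tl.η 0 t) = itc F.tl n (con F.tl.η 0 t')
    refine itc_congr n _ _ fun w hw hn => ?_
    rw [con0, con0]
    refine Finset.sum_congr rfl fun a _ => ?_
    rw [h (a :: F.tl.st a :: w) (by rw [List.length_cons, List.length_cons, hw]; omega) ?_]
    rw [nf_cons, nf_cons, hn]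
    have e : (F.tl.st a).2 = !a.2 := rfl
    rw [e]
    cases a.2 <;> simp

theorem itc_add (n : ℕ) : ∀ (t t' : List (I × Bool) → K),
    itc F.tl n (t + t') = itc F.tl n t + itc F.tl n t' := by
  induction n with
  | zero => intro t t'; rfl
  | succ n ih =>
    intro t t'
    show itc F.tl n (con F.tl.η 0 (t + t')) = itc F.tl n (con F.tl.η 0 t) +
      itc F.tl n (con F.tl.η 0 t')
    rw [← ih]
    congr 1
    funext w
    rw [Pi.add_apply, con0, con0, con0, ← Finset.sum_add_distrib]
    exact Finset.sum_congr rfl fun a _ => by rw [Pi.add_apply, mul_add]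

theorem itc_der (hDEC : T_DEC) (T : Matrix (I × Bool) (I × Bool) K)
    (hT : ∀ a b, T a b ≠ 0 → a.1 = b.1) (hsk : Tᵀ * F.tl.η + F.tl.η * T = 0) (n : ℕ) :
    ∀ t : List (I × Bool) → K, itc F.tl n (der T t) = 0 := by
  induction n with
  | zero => intro t; rfl
  | succ n ih =>
    intro t
    show itc F.tl n (con F.tl.η 0 (der T t)) = 0
    have e : con F.tl.η 0 (der T t) = der T (con F.tl.η 0 t) := by
      funext w
      exact ((hDEC K (I × Bool) F.tl.o F.tl.η T (fun a b hab => by
        show (!F.o a.1) = !F.o b.1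
        rw [hT a b hab])).2.1 hsk 0 t w (Nat.zero_le _)).symm
    rw [e]
    exact ih _

theorem tl_sd : F.tl.sd = -2 * F.sd := by
  unfold Form.sd OForm.sd
  rw [Fintype.sum_prod_type, Finset.mul_sum]
  refine Finset.sum_congr rfl fun a _ => ?_
  rw [Fintype.sum_bool]
  show sg K (!F.o a) + sg K (!F.o a) = -2 * sg K (F.o a)
  unfold sg
  cases F.o a <;> simp <;> ring

end main

theorem pf_TPR (_hTCA : T_TCA) (hTIN : T_TIN) (hDEC : T_DEC) (hTEF : T_TEF) (hTST : T_TST)
    (hRCG : T_RCG) (hSL2 : T_SL2) : T_TPR := by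
  intro K _ _ I _ _ F A hC hER l t hl hsd ht hs
  classical
  obtain ⟨hCI, _, hskF⟩ := hTIN K I F A hC
  -- the balanced part
  let t0 : List (I × Bool) → K := fun w => if w.length = 2 * l ∧ nf false w = l then t w else 0
  have ht0 : t0 ∈ SS F A l := by
    refine ⟨?_, ?_, ?_⟩
    · intro σ hσ
      by_cases hb : σ.count false = l
      · refine hC.congr l _ _ (ht σ hσ) fun w hw => ?_
        unfold OForm.cmp
        have e : t0 (w.zip σ) = t (w.zip σ) := if_pos ⟨by
          rw [List.length_zip, hw, hσ, min_self], by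
          rw [nf_zip false w σ (hσ.trans hw.symm), hb]⟩
        rw [e]
      · refine hC.congr l _ _ (A l).zero_mem fun w hw => ?_
        unfold OForm.cmp
        have e : t0 (w.zip σ) = 0 := if_neg fun h => hb (by
          rw [← h.2, nf_zip false w σ (hσ.trans hw.symm)])
        rw [e, mul_zero]
        rfl
    · intro j hj w hw
      have e1 := hs j hj w hw
      obtain ⟨α, a, b, β, rfl, rfl⟩ := exists_split j w (by omega)
      rw [sw_append] at e1 ⊢
      have e2 : nf false (α ++ b :: a :: β) = nf false (α ++ a :: b :: β) := by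
        rw [nf_append, nf_append, nf_cons, nf_cons, nf_cons, nf_cons]
        omega
      have e3 : (α ++ b :: a :: β).length = (α ++ a :: b :: β).length := by simp
      show _ * (if (α ++ b :: a :: β).length = 2 * l ∧ nf false (α ++ b :: a :: β) = l
        then t (α ++ b :: a :: β) else 0) = if (α ++ a :: b :: β).length = 2 * l ∧
        nf false (α ++ a :: b :: β) = l then t (α ++ a :: b :: β) else 0
      rw [e2, e3]
      by_cases hb : (α ++ a :: b :: β).length = 2 * l ∧ nf false (α ++ a :: b :: β) = l
      · rw [if_pos hb, if_pos hb, e1]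
      · rw [if_neg hb, if_neg hb, mul_zero]
    · intro w hw
      exact if_neg fun h => hw h.1
  have hE : ∀ y ∈ SS F A l, dE F.EE y ∈ SS F A l := fun y hy => (der_mem F hTEF hDEC A hC l y hy).1
  have hF : ∀ y ∈ SS F A l, dE F.FF y ∈ SS F A l := fun y hy => (der_mem F hTEF hDEC A hC l y hy).2
  have hpow : ∀ T : Matrix (I × Bool) (I × Bool) K, (∀ y ∈ SS F A l, dE T y ∈ SS F A l) →
      ∀ m : ℕ, ∀ y ∈ SS F A l, (dE T ^ m) y ∈ SS F A l := by
    intro T hT m
    induction m with
    | zero => intro y hy; exact hy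
    | succ m ih =>
      intro y hy
      rw [pow_succ']
      exact hT _ (ih y hy)
  have hnil : ∀ (s : Bool) (T : Matrix (I × Bool) (I × Bool) K),
      (∀ a b, T a b ≠ 0 → a.2 = s ∧ b.2 ≠ s) → (∀ y ∈ SS F A l, dE T y ∈ SS F A l) →
      ∀ y ∈ SS F A l, (dE T ^ (2 * l + 1)) y = 0 := by
    intro s T hT hS y hy
    funext w
    by_cases hw : w.length = 2 * l
    · exact der_pow s T hT y (2 * l + 1) w (by have := nf_le s w; omega)
    · exact (hpow T hS _ y hy).2.2 w hw
  have hEF : dE F.EE * dE F.FF - dE F.FF * dE F.EE = dE (Matrix.diagonal (wt K)) := by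
    rw [dE_comm, EF]
  have h2 : ∀ (c : ℚ) (T : Matrix (I × Bool) (I × Bool) K), dE ((c : K) • T) = c • dE T := by
    intro c T
    refine LinearMap.ext fun y => funext fun w => ?_
    show der ((c : K) • T) y w = c • der T y w
    rw [der_smulT, Rat.smul_def]
  obtain ⟨u, hu, hz1, hz2⟩ := hSL2 (List (I × Bool) → K) (dE F.EE) (dE F.FF)
    (dE (Matrix.diagonal (wt K))) hEF (by
      rw [dE_comm, HE, ← h2]
      norm_num) (by
      have h3 : -((2 : ℚ) • dE F.FF) = (-2 : ℚ) • dE F.FF := by
        refine LinearMap.ext fun y => funext fun w => ?_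
        show -((2 : ℚ) • der F.FF y w) = (-2 : ℚ) • der F.FF y w
        rw [Rat.smul_def, Rat.smul_def]
        push_cast
        ring
      rw [dE_comm, HF, h3, ← h2]
      norm_num) (SS F A l) hE hF (2 * l)
    (hnil false F.EE (fun a b h => by
      obtain ⟨_, h3, h4⟩ := EE_ne F a b h
      exact ⟨h3, by rw [h4]; decide⟩) hE)
    (hnil true F.FF (fun a b h => by
      obtain ⟨_, h3, h4⟩ := FF_ne F a b h
      exact ⟨h3, by rw [h4]; decide⟩) hF) t0 ht0 (by
      funext w
      show der (Matrix.diagonal (wt K)) t0 w = 0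
      rw [der_diag, wt_sum]
      by_cases hb : w.length = 2 * l ∧ nf false w = l
      · have h3 := nf_add w
        have h4 : nf true w = l := by omega
        rw [hb.2, h4, sub_self, zero_mul]
      · have e : t0 w = 0 := if_neg hb
        rw [e, mul_zero])
  obtain ⟨z, hz⟩ : ∃ z, z = t0 + dE F.FF (dE F.EE u) := ⟨_, rfl⟩
  rw [← hz] at hz1 hz2
  have hzS : z ∈ SS F A l := by
    rw [hz]
    exact (SS F A l).add_mem ht0 (hF _ (hE _ hu))
  have hzI : z ∈ F.TI A l := ⟨hzS.1, fun w _ => ⟨congrFun hz1 w, congrFun hz2 w⟩⟩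
  have h3 : itc F.tl l z = 0 := by
    refine hRCG K (I × Bool) F.tl (F.TI A) hCI (hTST K I F A hC hER) l z hl ?_ hzI hzS.2.1
    rw [tl_sd, hsd]
    ring
  have h4 : itc F.tl l t = itc F.tl l t0 := by
    refine itc_congr F l _ _ fun w hw hn => ?_
    exact (if_pos ⟨hw, hn⟩).symm
  have h5 : itc F.tl l (dE F.FF (dE F.EE u)) = 0 :=
    itc_der F hDEC F.FF (fun a b h => (FF_ne F a b h).1) hskF l _
  rw [hz, itc_add, h5, add_zero] at h3
  rw [h4, h3]

end Pool.Agent.H10.EV.TPR
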