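import Pool.Agent.H64.EV.Targets

/-!
# Row TS3: the exchange of the first two factors of the plane, in the pairing
-/

set_option autoImplicit false
set_option linter.unusedSectionVars false

open Matrix Pool.Agent.H64.CC Pool.Agent.H2.NL Pool.Agent.H64.EV

namespace Pool.Agent.H10.EV

/-! ### Exchanges of lists -/

theorem xs_append (α : List Bool) (a b : Bool) (β : List Bool) :
    xs α.length (α ++ a :: b :: β) = α ++ b :: a :: β := by
  induction α with
  | nil => rfl
  | cons x α ih => exact congrArg (x :: ·) ih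

theorem xs_perm : ∀ (j : ℕ) (σ : List Bool), (xs j σ).Perm σ
  | 0, [] => List.Perm.refl _
  | 0, [_] => List.Perm.refl _
  | 0, a :: b :: l => List.Perm.swap a b l
  | _ + 1, [] => List.Perm.refl _
  | j + 1, a :: l => (xs_perm j l).cons a

theorem xs_xs : ∀ (j : ℕ) (σ : List Bool), xs j (xs j σ) = σ
  | 0, [] => rfl
  | 0, [_] => rfl
  | 0, _ :: _ :: _ => rfl
  | _ + 1, [] => rfl
  | j + 1, a :: l => congrArg (a :: ·) (xs_xs j l)

theorem xs_map : ∀ (j : ℕ) (σ : List Bool), (xs j σ).map not = xs j (σ.map not)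
  | 0, [] => rfl
  | 0, [_] => rfl
  | 0, _ :: _ :: _ => rfl
  | _ + 1, [] => rfl
  | j + 1, a :: l => congrArg ((!a) :: ·) (xs_map j l)

theorem xss_perm (js : List ℕ) (σ : List Bool) : (js.foldr xs σ).Perm σ := by
  induction js with
  | nil => exact List.Perm.refl _
  | cons j js ih => exact (xs_perm j _).trans ih

theorem xss_map (js : List ℕ) (σ : List Bool) :
    (js.foldr xs σ).map not = js.foldr xs (σ.map not) := by
  induction js with
  | nil => rfl
  | cons j js ih =>
    show (xs j (js.foldr xs σ)).map not = xs j (js.foldr xs (σ.map not))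
    rw [xs_map, ih]

theorem xss_inj (js : List ℕ) (σ σ' : List Bool) (h : js.foldr xs σ = js.foldr xs σ') :
    σ = σ' := by
  induction js with
  | nil => exact h
  | cons j js ih =>
    apply ih
    have h1 : xs j (js.foldr xs σ) = xs j (js.foldr xs σ') := h
    rw [← xs_xs j (js.foldr xs σ), h1, xs_xs]

/-- iterated exchanges, as a permutation of the words of a given length -/
theorem xss_sum {K : Type} [Field K] (js : List ℕ) (n : ℕ) (G : List Bool → K) :
    ∑ σ : List.Vector Bool n, G (js.foldr xs σ.1) = ∑ σ : List.Vector Bool n, G σ.1 := by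
  let φ : List.Vector Bool n → List.Vector Bool n := fun σ =>
    ⟨js.foldr xs σ.1, by rw [(xss_perm js σ.1).length_eq, σ.2]⟩
  have hb : Function.Bijective φ := by
    refine Finite.injective_iff_bijective.1 ?_
    intro σ σ' h
    exact Subtype.ext (xss_inj js _ _ (congrArg Subtype.val h))
  exact Function.Bijective.sum_comp hb (fun σ : List.Vector Bool n => G σ.1)

theorem m_form (a : Bool) : ∀ (i : ℕ) (u : List Bool) (b : Bool) (v : List Bool), u.length = i →
    (List.range' 1 i).foldr xs (a :: (u ++ b :: v)) = a :: b :: (u ++ v) := by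
  intro i
  induction i with
  | zero =>
    intro u b v hu
    rw [List.length_eq_zero_iff.1 hu]
    rfl
  | succ i ih =>
    intro u b v hu
    obtain ⟨u', x, rfl⟩ : ∃ u' x, u = u' ++ [x] :=
      ⟨u.dropLast, u.getLast (by intro h; rw [h] at hu; simp at hu),
        (List.dropLast_append_getLast _).symm⟩
    have hu' : u'.length = i := by simpa using hu
    rw [List.range'_1_concat, List.foldr_append]
    have h1 : [1 + i].foldr xs (a :: (u' ++ [x] ++ b :: v)) = a :: (u' ++ b :: x :: v) := by
      have h2 := xs_append (a :: u') x b v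
      have h3 : (a :: u').length = 1 + i := by rw [List.length_cons, hu', Nat.add_comm]
      rw [h3] at h2
      show xs (1 + i) (a :: (u' ++ [x] ++ b :: v)) = _
      rw [List.append_assoc]
      exact h2
    rw [h1, ih u' b (x :: v) hu']
    simp

theorem getD_form (a d b : Bool) (v : List Bool) (u : List Bool) :
    (u ++ b :: v).getD u.length d = b ∧ (u ++ b :: v).set u.length a = u ++ a :: v := by
  induction u with
  | nil => exact ⟨rfl, rfl⟩
  | cons x u ih => exact ⟨ih.1, congrArg (x :: ·) ih.2⟩

/-! ### Linearity -/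

section lin

variable {K : Type} [Field K] {I : Type} [Fintype I] [DecidableEq I] (F : OForm K I)

theorem Pr_congr : ∀ (n : ℕ) (f f' g g' : List I → K),
    (∀ w : List I, w.length = n → f w = f' w) → (∀ w : List I, w.length = n → g w = g' w) →
    F.Pr n f g = F.Pr n f' g'
  | 0, f, f', g, g', hf, hg => by
    show f [] * g [] = f' [] * g' []
    rw [hf [] rfl, hg [] rfl]
  | n + 1, f, f', g, g', hf, hg => by
    show ∑ a, F.c a * F.Pr n (fun l => f (a :: l)) (fun l => g (F.st a :: l)) =
      ∑ a, F.c a * F.Pr n (fun l => f' (a :: l)) (fun l => g' (F.st a :: l))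
    refine Finset.sum_congr rfl fun a _ => ?_
    rw [Pr_congr n _ (fun l => f' (a :: l)) _ (fun l => g' (F.st a :: l))
      (fun w hw => hf _ (by rw [List.length_cons, hw])) (fun w hw => hg _ (by rw [List.length_cons, hw]))]

theorem Pr_smul (c d : K) : ∀ (n : ℕ) (f g : List I → K),
    F.Pr n (fun w => c * f w) (fun w => d * g w) = c * d * F.Pr n f g
  | 0, f, g => by
    show (c * f []) * (d * g []) = c * d * (f [] * g [])
    ring
  | n + 1, f, g => by
    show ∑ a, F.c a * F.Pr n (fun l => c * f (a :: l)) (fun l => d * g (F.st a :: l)) =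
      c * d * ∑ a, F.c a * F.Pr n (fun l => f (a :: l)) (fun l => g (F.st a :: l))
    rw [Finset.mul_sum]
    refine Finset.sum_congr rfl fun a _ => ?_
    rw [Pr_smul c d n]
    ring

theorem Pr_sum {ι : Type} (s : Finset ι) : ∀ (n : ℕ) (f : ι → List I → K) (g : List I → K),
    F.Pr n (fun w => ∑ i ∈ s, f i w) g = ∑ i ∈ s, F.Pr n (f i) g
  | 0, f, g => by
    show (∑ i ∈ s, f i []) * g [] = ∑ i ∈ s, f i [] * g []
    rw [Finset.sum_mul]
  | n + 1, f, g => by
    show ∑ a, F.c a * F.Pr n (fun l => ∑ i ∈ s, f i (a :: l)) (fun l => g (F.st a :: l)) =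
      ∑ i ∈ s, ∑ a, F.c a * F.Pr n (fun l => f i (a :: l)) (fun l => g (F.st a :: l))
    rw [Finset.sum_comm]
    refine Finset.sum_congr rfl fun a _ => ?_
    rw [Pr_sum s n (fun i l => f i (a :: l)), Finset.mul_sum]

theorem con_smul (c : K) (f : List I → K) (w : List I) :
    con F.η 0 (fun w => c * f w) w = c * con F.η 0 f w := by
  show ∑ a, ∑ b, F.η a b * (c * f (a :: b :: w)) = c * ∑ a, ∑ b, F.η a b * f (a :: b :: w)
  simp only [Finset.mul_sum]
  exact Finset.sum_congr rfl fun a _ => Finset.sum_congr rfl fun b _ => by ring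

theorem con'_smul (c : K) (f : List I → K) (w : List I) :
    F.con' (fun w => c * f w) w = c * F.con' f w := by
  show ∑ a, F.c a * (c * f (F.st a :: a :: w)) = c * ∑ a, F.c a * f (F.st a :: a :: w)
  rw [Finset.mul_sum]
  exact Finset.sum_congr rfl fun a _ => by ring

theorem con'_congr (n : ℕ) (f g : List I → K) (h : ∀ w : List I, w.length = n + 2 → f w = g w)
    (w : List I) (hw : w.length = n) : F.con' f w = F.con' g w := by
  show ∑ a, F.c a * f (F.st a :: a :: w) = ∑ a, F.c a * g (F.st a :: a :: w)
  refine Finset.sum_congr rfl fun a _ => ?_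
  rw [h _ (by rw [List.length_cons, List.length_cons, hw])]

theorem sw_smul (o : I → Bool) (c : K) (j : ℕ) (f : List I → K) (w : List I)
    (h : j + 2 ≤ w.length) : sw o j (fun w => c * f w) w = c * sw o j f w := by
  obtain ⟨α, a, b, β, rfl, rfl⟩ := exists_split j w h
  rw [sw_append, sw_append]
  ring

theorem sws_X (o : I → Bool) (n : ℕ) (X : List Bool → List I → K)
    (hX : ∀ (j : ℕ) (σ : List Bool) (w : List I), j + 2 ≤ n → σ.length = n → w.length = n →
      sw o j (X σ) w = -X (xs j σ) w) :
    ∀ (js : List ℕ), (∀ j ∈ js, j + 2 ≤ n) → ∀ (σ : List Bool) (w : List I), σ.length = n →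
      w.length = n → sws o js (X σ) w = (-1) ^ js.length * X (js.foldr xs σ) w := by
  intro js
  induction js with
  | nil =>
    intro _ σ w _ _
    show X σ w = _
    rw [List.length_nil, pow_zero, one_mul]
    rfl
  | cons j js ih =>
    intro hjs σ w hσ hw
    have hj : j + 2 ≤ n := hjs j List.mem_cons_self
    show sw o j (sws o js (X σ)) w = _
    rw [sw_congr o j n _ (fun w => (-1) ^ js.length * X (js.foldr xs σ) w)
      (fun v hv => ih (fun i hi => hjs i (List.mem_cons_of_mem _ hi)) σ v hσ hv) hj w hw,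
      sw_smul o _ j _ w (by rw [hw]; exact hj),
      hX j _ w hj (by rw [(xss_perm js σ).length_eq, hσ]) hw, List.length_cons, pow_succ]
    show (-1) ^ js.length * -X (xs j (js.foldr xs σ)) w =
      (-1) ^ js.length * -1 * X (xs j (js.foldr xs σ)) w
    ring

theorem Pr_sws (hOPS : T_OPS) (n : ℕ) : ∀ (js : List ℕ), (∀ j ∈ js, j + 2 ≤ n) →
    ∀ f g : List I → K, F.Pr n (sws F.o js f) (sws F.o js g) = F.Pr n f g := by
  intro js
  induction js with
  | nil => intro _ f g; rfl
  | cons j js ih =>
    intro hjs f g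
    have h1 := (hOPS K I F n j (sws F.o js f) (sws F.o js g) (hjs j List.mem_cons_self)).1
    exact h1.trans (ih (fun i hi => hjs i (List.mem_cons_of_mem _ hi)) f g)

/-- the components of a symmetric tensor -/
theorem cmp_sw (hTC1 : T_TC1) (n : ℕ) (t : List (I × Bool) → K) (hs : Symm F.tl.o n t) (j : ℕ)
    (σ : List Bool) (w : List I) (hj : j + 2 ≤ n) (hσ : σ.length = n) (hw : w.length = n) :
    sw F.o j (F.cmp t σ) w = -F.cmp t (xs j σ) w := by
  have h1 := (hTC1 K I F).1 j t (xs j σ) w (by rw [(xs_perm j σ).length_eq, hσ, hw])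
    (by rw [hw]; exact hj)
  rw [xs_xs] at h1
  have h2 : F.cmp (sw F.tl.o j t) (xs j σ) w = F.cmp t (xs j σ) w := by
    unfold OForm.cmp
    rw [hs j hj (w.zip (xs j σ)) (by
      rw [List.length_zip, (xs_perm j σ).length_eq, hσ, hw, min_self])]
  rw [h2] at h1
  rw [h1, neg_neg]

end lin

theorem pf_TS3 (hOPS : T_OPS) (hTC1 : T_TC1) (hTEF : T_TEF) (hTS1 : T_TS1) (hCAS : T_CAS) :
    T_TS3 := by
  intro K _ _ I _ _ F A hC k t t' hk ht hs hs'
  have hX : ∀ (j : ℕ) (σ : List Bool) (w : List I), j + 2 ≤ 2 * k → σ.length = 2 * k →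
      w.length = 2 * k → sw F.o j (F.cmp t σ) w = -F.cmp t (xs j σ) w :=
    fun j σ w => cmp_sw F hTC1 (2 * k) t hs j σ w
  have hY : ∀ (j : ℕ) (σ : List Bool) (w : List I), j + 2 ≤ 2 * k → σ.length = 2 * k →
      w.length = 2 * k → sw F.o j (F.cmp t' σ) w = -F.cmp t' (xs j σ) w :=
    fun j σ w => cmp_sw F hTC1 (2 * k) t' hs' j σ w
  have hjs : ∀ i, i < 2 * k - 1 → ∀ j ∈ List.range' 1 i, j + 2 ≤ 2 * k := by
    intro i hi j hj
    rw [List.mem_range'_1] at hj
    omega
  have hlen : ∀ i : ℕ, (List.range' 1 i).length = i := fun i => List.length_range'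
  have hone : ∀ i : ℕ, ((-1 : K) ^ i) * (-1) ^ i = 1 := by
    intro i
    rw [← mul_pow]
    norm_num
  -- the sum of the second claim
  constructor
  · intro i hi
    set js := List.range' 1 i with hjsdef
    have key : ∀ σ : List.Vector Bool (2 * k), (-1 : K) ^ (σ.1.count true) *
        (F.Pr (2 * k) (sw F.o 0 (mv F.o (i + 1) (F.cmp t σ.1)))
          (mv F.o (i + 1) (F.cmp t' (σ.1.map not))) -
        F.Pr (2 * k - 2) (con F.η 0 (mv F.o (i + 1) (F.cmp t σ.1)))
          (F.con' (mv F.o (i + 1) (F.cmp t' (σ.1.map not))))) =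
        (fun ρ : List Bool => (-1 : K) ^ (ρ.count true) *
          (-F.Pr (2 * k) (F.cmp t (xs 0 ρ)) (F.cmp t' (ρ.map not)) -
          F.Pr (2 * k - 2) (con F.η 0 (F.cmp t ρ)) (F.con' (F.cmp t' (ρ.map not)))))
          (js.foldr xs σ.1) := by
      intro σ
      have hσ : σ.1.length = 2 * k := σ.2
      have hσ' : (σ.1.map not).length = 2 * k := by rw [List.length_map, hσ]
      have hmX : ∀ w : List I, w.length = 2 * k → mv F.o (i + 1) (F.cmp t σ.1) w =
          (-1) ^ i * F.cmp t (js.foldr xs σ.1) w := by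
        intro w hw
        have h := sws_X F.o (2 * k) (F.cmp t) hX js (hjs i hi) σ.1 w hσ hw
        rw [hlen] at h
        exact h
      have hmY : ∀ w : List I, w.length = 2 * k → mv F.o (i + 1) (F.cmp t' (σ.1.map not)) w =
          (-1) ^ i * F.cmp t' ((js.foldr xs σ.1).map not) w := by
        intro w hw
        have h := sws_X F.o (2 * k) (F.cmp t') hY js (hjs i hi) (σ.1.map not) w hσ' hw
        rw [hlen, ← xss_map] at h
        exact h
      have hsX : ∀ w : List I, w.length = 2 * k →
          sw F.o 0 (mv F.o (i + 1) (F.cmp t σ.1)) w =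
          -(-1) ^ i * F.cmp t (xs 0 (js.foldr xs σ.1)) w := by
        intro w hw
        have h := sws_X F.o (2 * k) (F.cmp t) hX (0 :: js) (by
          intro j hj
          rcases List.mem_cons.1 hj with rfl | hj
          · omega
          · exact hjs i hi j hj) σ.1 w hσ hw
        rw [List.length_cons, hlen, pow_succ, mul_neg_one] at h
        exact h
      have h1 : F.Pr (2 * k) (sw F.o 0 (mv F.o (i + 1) (F.cmp t σ.1)))
          (mv F.o (i + 1) (F.cmp t' (σ.1.map not))) =
          -F.Pr (2 * k) (F.cmp t (xs 0 (js.foldr xs σ.1)))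
            (F.cmp t' ((js.foldr xs σ.1).map not)) := by
        rw [Pr_congr F (2 * k) _ _ _ _ hsX hmY, Pr_smul, neg_mul, hone, neg_one_mul]
      have h2 : F.Pr (2 * k - 2) (con F.η 0 (mv F.o (i + 1) (F.cmp t σ.1)))
          (F.con' (mv F.o (i + 1) (F.cmp t' (σ.1.map not)))) =
          F.Pr (2 * k - 2) (con F.η 0 (F.cmp t (js.foldr xs σ.1)))
            (F.con' (F.cmp t' ((js.foldr xs σ.1).map not))) := by
        have e : 2 * k - 2 + 2 = 2 * k := by omega
        rw [Pr_congr F (2 * k - 2) _ (fun w => (-1) ^ i * con F.η 0 (F.cmp t (js.foldr xs σ.1)) w)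
          _ (fun w => (-1) ^ i * F.con' (F.cmp t' ((js.foldr xs σ.1).map not)) w) ?_ ?_,
          Pr_smul, hone, one_mul]
        · intro w hw
          rw [con_congr F.η 0 (2 * k - 2) _ _ (fun v hv => hmX v (hv.trans e)) (Nat.zero_le _) w hw,
            con_smul]
        · intro w hw
          rw [con'_congr F (2 * k - 2) _ _ (fun v hv => hmY v (hv.trans e)) w hw, con'_smul]
      rw [h1, h2]
      show _ = (-1 : K) ^ ((js.foldr xs σ.1).count true) * _
      rw [(xss_perm js σ.1).count_eq]
    rw [Finset.sum_congr rfl fun σ _ => key σ]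
    exact xss_sum (K := K) js (2 * k) (fun ρ : List Bool => (-1 : K) ^ (ρ.count true) *
      (-F.Pr (2 * k) (F.cmp t (xs 0 ρ)) (F.cmp t' (ρ.map not)) -
      F.Pr (2 * k - 2) (con F.η 0 (F.cmp t ρ)) (F.con' (F.cmp t' (ρ.map not)))))
  · obtain ⟨S, hS⟩ : ∃ S, S = ∑ σ : List.Vector Bool (2 * k), (-1 : K) ^ (σ.1.count true) *
        F.Pr (2 * k) (F.cmp t (xs 0 σ.1)) (F.cmp t' (σ.1.map not)) := ⟨_, rfl⟩
    -- the shift
    let tau : ℕ → List Bool → List Bool := fun i σ => match σ with
      | [] => []
      | a :: l => l.getD i a :: l.set i a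
    have htau : ∀ i, i < 2 * k - 1 → ∑ σ : List.Vector Bool (2 * k),
        (-1 : K) ^ (σ.1.count true) * F.Pr (2 * k) (F.cmp t (tau i σ.1))
          (F.cmp t' (σ.1.map not)) = S := by
      intro i hi
      set js := List.range' 1 i with hjsdef
      rw [hS, ← xss_sum js (2 * k) (fun ρ : List Bool => (-1 : K) ^ (ρ.count true) *
        F.Pr (2 * k) (F.cmp t (xs 0 ρ)) (F.cmp t' (ρ.map not)))]
      refine Finset.sum_congr rfl fun σ _ => ?_
      obtain ⟨σ, hσ⟩ := σ
      have hσ' : (σ.map not).length = 2 * k := by rw [List.length_map, hσ]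
      have hform : (tau i σ).length = 2 * k ∧ js.foldr xs (tau i σ) = xs 0 (js.foldr xs σ) := by
        match σ, hσ with
        | [], hσ => exact absurd hσ (by simp; omega)
        | a :: l, hσ =>
          obtain ⟨u, β, hu, hl⟩ := exists_split' i l (by simp at hσ; omega)
          match β, hl with
          | [], hl =>
            exfalso
            rw [List.append_nil] at hl
            rw [hl, List.length_cons, hu] at hσ
            omega
          | b :: v, hl =>
            have h1 : tau i (a :: l) = b :: (u ++ a :: v) := by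
              show l.getD i a :: l.set i a = _
              rw [hl, ← hu, (getD_form a a b v u).1, (getD_form a a b v u).2]
            refine ⟨?_, ?_⟩
            · rw [h1]
              rw [hl] at hσ
              simp only [List.length_cons, List.length_append] at hσ ⊢
              omega
            · rw [h1, m_form b i u a v hu, hl, m_form a i u b v hu]
              rfl
      have h1 : F.Pr (2 * k) (F.cmp t (tau i σ)) (F.cmp t' (σ.map not)) =
          F.Pr (2 * k) (F.cmp t (xs 0 (js.foldr xs σ))) (F.cmp t' ((js.foldr xs σ).map not)) := by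
        rw [← Pr_sws F hOPS (2 * k) js (hjs i hi)]
        rw [Pr_congr F (2 * k) _ (fun w => (-1) ^ i * F.cmp t (xs 0 (js.foldr xs σ)) w)
          _ (fun w => (-1) ^ i * F.cmp t' ((js.foldr xs σ).map not) w) ?_ ?_,
          Pr_smul, hone, one_mul]
        · intro w hw
          have h := sws_X F.o (2 * k) (F.cmp t) hX js (hjs i hi) (tau i σ) w hform.1 hw
          rw [hlen, hform.2] at h
          exact h
        · intro w hw
          have h := sws_X F.o (2 * k) (F.cmp t') hY js (hjs i hi) (σ.map not) w hσ' hw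
          rw [hlen, ← xss_map] at h
          exact h
      show (-1 : K) ^ (σ.count true) * _ = (-1 : K) ^ ((js.foldr xs σ).count true) * _
      rw [h1, (xss_perm js σ).count_eq]
    -- the Casimir operator
    have hcas : ∀ w : List I, w.length = 2 * k → ∀ σ : List Bool, σ.length = 2 * k →
        ∑ i ∈ Finset.range (2 * k - 1), F.cmp t (tau i σ) w = ((k : K) - 2) * F.cmp t σ w := by
      intro w hw σ hσ
      have h1 := hCAS K k (fun ρ => F.cmp t ρ w) hk (by
        intro ρ hρ
        have h2 := (hTEF K I F t ρ w (hρ.trans hw.symm)).1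
        rw [hw] at h2
        rw [← h2]
        unfold OForm.cmp
        rw [(ht.2 (w.zip ρ) (by rw [List.length_zip, hw, hρ, min_self])).1, mul_zero]) (by
        intro ρ hρ
        have h2 := (hTEF K I F t ρ w (hρ.trans hw.symm)).2
        rw [hw] at h2
        rw [← h2]
        unfold OForm.cmp
        rw [(ht.2 (w.zip ρ) (by rw [List.length_zip, hw, hρ, min_self])).2, mul_zero])
      match σ, hσ with
      | [], hσ => exact absurd hσ (by simp; omega)
      | s :: l, hσ => exact h1 s l (by simpa using hσ)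
    have hTS := hTS1 K I F (2 * k) t t' (by
      intro w hw hne
      have h1 : F.cmp t (w.map Prod.snd) ∈ A k := ht.1 _ (by rw [List.length_map, hw])
      refine hC.even k _ _ h1 (by rw [List.length_map, hw]) ?_
      unfold OForm.cmp
      have h2 : (w.map Prod.fst).zip (w.map Prod.snd) = w := by
        rw [List.zip_map', List.map_id'']
        intro x
        rfl
      rw [h2]
      exact mul_ne_zero (inv_ne_zero (F.lw_ne w 0)) hne)
    rw [hTS, ← hS]
    have hsum : ∑ i ∈ Finset.range (2 * k - 1), ∑ σ : List.Vector Bool (2 * k),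
        (-1 : K) ^ (σ.1.count true) * F.Pr (2 * k) (F.cmp t (tau i σ.1))
          (F.cmp t' (σ.1.map not)) = (2 * k - 1 : K) * S := by
      rw [Finset.sum_congr rfl fun i hi => htau i (Finset.mem_range.1 hi), Finset.sum_const,
        Finset.card_range, nsmul_eq_mul, Nat.cast_sub (by omega)]
      push_cast
      ring
    rw [← hsum, Finset.sum_comm, Finset.mul_sum]
    refine Finset.sum_congr rfl fun σ _ => ?_
    rw [← Finset.mul_sum, ← Pr_sum,
      Pr_congr F (2 * k) _ (fun w => ((k : K) - 2) * F.cmp t σ.1 w) _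
        (fun w => 1 * F.cmp t' (σ.1.map not) w) (fun w hw => hcas w hw σ.1 σ.2)
        (fun w _ => (one_mul _).symm), Pr_smul]
    ring

end Pool.Agent.H10.EV
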